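import Pool.Agent.V113.Gd.Cls

/-!
# MP_b87388_al: the two global dimensions differ for the affine group of the field with 8 elements

Let `G = 𝔽₂³ ⋊ C₇` (order 56), the generator of `C₇` acting by a linear map of order seven.  There
are six conjugacy classes of subgroups, `1 < C₂ < C₂² < C₂³ < G` and `1 < C₇ < G`, and the rational
incidence algebra of this poset has global dimension at most two.  The category of rational
coefficient systems has global dimension at least three: the coefficient system with value `ℚ` on
the orbits `G ⧸ H`, `H ≤ C₂³`, modulo the subsystem generated by the values at the planes
`C₂²`, has projective dimension at least three, because three planes in general position give a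
cycle that cannot be lifted.
-/

set_option autoImplicit false

namespace Pool.Agent.Results.MP_b87388_al.GroupOfOrder56

open CategoryTheory Pool.V113.Gd

/-- **The result.** There is a finite group `G` for which the global dimension of the rational
incidence algebra of the poset of conjugacy classes of subgroups differs from the global dimension
of the category of rational coefficient systems; the former is at most `2` and the latter is at
least `3`. -/
theorem result : ∃ (G : Type) (_ : Group G) (_ : Finite G),
    gldim (ModuleCat.{0} (IncidenceAlgebra ℚ (SubCl G))) ≠ gldim (Coef G) ∧
      gldim (ModuleCat.{0} (IncidenceAlgebra ℚ (SubCl G))) ≤ 2 ∧ 3 ≤ gldim (Coef G) :=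
  main

end Pool.Agent.Results.MP_b87388_al.GroupOfOrder56
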